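import Mathlib

/-!
Finite J-height is not inherited by bi-ideals: there is a semigroup `S` of J-height `2`
(a 0-simple semigroup, namely the Brandt-type semigroup of `2 × 2` matrix units over the
bicyclic monoid) with a bi-ideal `B` whose own J-height is infinite.
-/

namespace Pool.Agent.Results.MP_92d133_al.BiIdealInfiniteJHeight

section Definitions

variable {S : Type*} [Semigroup S]

/-- The principal two-sided ideal `S¹ a S¹ = {a} ∪ S a ∪ a S ∪ S a S` generated by `a`. -/
def principalIdeal (a : S) : Set S :=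
  {x | x = a ∨ (∃ u, x = u * a) ∨ (∃ v, x = a * v) ∨ (∃ u v, x = u * a * v)}

/-- Green's preorder: `a ≤_J b` means `S¹ a S¹ ⊆ S¹ b S¹`. -/
def jLE (a b : S) : Prop := principalIdeal a ⊆ principalIdeal b

/-- Green's relation `J`: `a ≤_J b` and `b ≤_J a`. -/
def jSetoid (S : Type*) [Semigroup S] : Setoid S where
  r a b := jLE a b ∧ jLE b a
  iseqv :=
    { refl := fun _ => ⟨Set.Subset.rfl, Set.Subset.rfl⟩
      symm := fun h => ⟨h.2, h.1⟩
      trans := fun h k => ⟨h.1.trans k.1, k.2.trans h.2⟩ }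

/-- The set `S/J` of J-classes. -/
def JClass (S : Type*) [Semigroup S] : Type _ := Quotient (jSetoid S)

/-- The partial order on `S/J` induced by `≤_J`. -/
def JClass.le : JClass S → JClass S → Prop :=
  Quotient.lift₂ (fun a b : S => jLE a b) (by
    intro a b a' b' h k
    exact propext ⟨fun l => (h.2.trans l).trans k.1, fun l => (h.1.trans l).trans k.2⟩)

/-- The J-height of `S`: the supremum of the cardinalities of chains in `(S/J, ≤_J)`,
as an element of `{0, 1, 2, …} ∪ {∞}`. -/
noncomputable def jHeight (S : Type*) [Semigroup S] : ℕ∞ :=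
  ⨆ c : {c : Set (JClass S) // IsChain JClass.le c}, c.val.encard

/-- A bi-ideal of `S`: a nonempty subsemigroup `B` with `B S B ⊆ B`. -/
def IsBiIdeal (B : Subsemigroup S) : Prop :=
  (B : Set S).Nonempty ∧ ∀ a ∈ B, ∀ s : S, ∀ b ∈ B, a * s * b ∈ B

end Definitions

/-- The example: `2 × 2` matrix units over the bicyclic monoid `⟨p, q | p q = 1⟩`, with a
zero. The element `el i m n j` is the matrix unit `(i, q ^ m p ^ n, j)`. -/
inductive T : Type
  | zr : T
  | el (i : Bool) (m n : ℕ) (j : Bool) : T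

open T

/-- Multiplication of the example. -/
def T.mul : T → T → T
  | zr, _ => zr
  | el _ _ _ _, zr => zr
  | el i m n j, el i' m' n' j' =>
      if j = i' then el i (m + (m' - n)) (n' + (n - m')) j' else zr

theorem T.mul_assoc' (x y z : T) : T.mul (T.mul x y) z = T.mul x (T.mul y z) := by
  rcases x with _ | ⟨i, m, n, j⟩
  · rfl
  rcases y with _ | ⟨i', m', n', j'⟩
  · rfl
  rcases z with _ | ⟨i2, m2, n2, j2⟩
  · by_cases h : j = i' <;> simp [T.mul, h]
  by_cases h1 : j = i' <;> by_cases h2 : j' = i2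
  · simp only [T.mul, h1, h2, if_true]
    congr 1 <;> omega
  · simp [T.mul, h1, h2]
  · simp [T.mul, h1, h2]
  · simp [T.mul, h1, h2]

instance : Semigroup T where
  mul := T.mul
  mul_assoc := T.mul_assoc'

theorem el_mul (i : Bool) (m n : ℕ) (j : Bool) (m' n' : ℕ) (j' : Bool) :
    el i m n j * el j m' n' j' = el i (m + (m' - n)) (n' + (n - m')) j' :=
  if_pos rfl

theorem el_mul_ne (i : Bool) (m n : ℕ) (j k : Bool) (m' n' : ℕ) (j' : Bool) (h : j ≠ k) :
    el i m n j * el k m' n' j' = zr :=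
  if_neg h

theorem zr_mul (x : T) : zr * x = zr := rfl

theorem mul_zr (x : T) : x * zr = zr := by
  cases x <;> rfl

theorem el_ne_zr (i : Bool) (m n : ℕ) (j : Bool) : el i m n j ≠ zr := by
  intro h
  cases h

theorem el_inj {i : Bool} {m n : ℕ} {j : Bool} {i' : Bool} {m' n' : ℕ} {j' : Bool}
    (h : el i m n j = el i' m' n' j') : i = i' ∧ m = m' ∧ n = n' ∧ j = j' := by
  cases h
  exact ⟨rfl, rfl, rfl, rfl⟩

theorem T.cases_el (x : T) : x = zr ∨ ∃ i m n j, x = el i m n j := by
  rcases x with _ | ⟨i, m, n, j⟩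
  · exact Or.inl rfl
  · exact Or.inr ⟨i, m, n, j, rfl⟩

/-- Any element is in the ideal generated by a nonzero one. -/
theorem mem_ideal_el (x : T) (i : Bool) (m n : ℕ) (j : Bool) :
    x ∈ principalIdeal (el i m n j) := by
  rcases T.cases_el x with rfl | ⟨i', m', n', j', rfl⟩
  · exact Or.inr (Or.inl ⟨zr, (zr_mul _).symm⟩)
  · refine Or.inr (Or.inr (Or.inr ⟨el i' m' m i, el j n n' j', ?_⟩))
    rw [el_mul, el_mul]
    congr 1 <;> omega

theorem mem_ideal_zr (x : T) : x ∈ principalIdeal zr ↔ x = zr := by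
  constructor
  · rintro (h | ⟨u, h⟩ | ⟨v, h⟩ | ⟨u, v, h⟩)
    · exact h
    · rw [mul_zr] at h; exact h
    · rw [zr_mul] at h; exact h
    · rw [mul_zr, zr_mul] at h; exact h
  · intro h
    exact Or.inl h

theorem jLE_zr (x : T) : jLE zr x := by
  intro y hy
  rw [mem_ideal_zr] at hy
  subst hy
  exact Or.inr (Or.inl ⟨zr, (zr_mul _).symm⟩)

theorem jLE_el (x : T) (i : Bool) (m n : ℕ) (j : Bool) : jLE x (el i m n j) :=
  fun y _ => mem_ideal_el y i m n j

theorem not_jLE_el_zr (i : Bool) (m n : ℕ) (j : Bool) : ¬ jLE (el i m n j) zr := by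
  intro h
  have : el i m n j ∈ principalIdeal zr := h (Or.inl rfl)
  rw [mem_ideal_zr] at this
  exact el_ne_zr _ _ _ _ this

/-- The J-class of an element. -/
def cls {S : Type*} [Semigroup S] (a : S) : JClass S := Quotient.mk (jSetoid S) a

theorem cls_le {S : Type*} [Semigroup S] (a b : S) : JClass.le (cls a) (cls b) ↔ jLE a b :=
  Iff.rfl

theorem cls_eq {S : Type*} [Semigroup S] (a b : S) : cls a = cls b ↔ (jLE a b ∧ jLE b a) := by
  constructor
  · intro h
    exact Quotient.exact h
  · intro h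
    exact Quotient.sound h

theorem jHeight_T : jHeight T = 2 := by
  have hne : cls zr ≠ cls (el true 0 0 true) := by
    intro h
    rw [cls_eq] at h
    exact not_jLE_el_zr _ _ _ _ h.2
  have huniv : (Set.univ : Set (JClass T)) ⊆ {cls zr, cls (el true 0 0 true)} := by
    intro c _
    refine Quotient.inductionOn c ?_
    intro x
    rcases T.cases_el x with rfl | ⟨i, m, n, j, rfl⟩
    · exact Or.inl rfl
    · right
      show cls _ = cls _
      rw [cls_eq]
      exact ⟨jLE_el _ _ _ _ _, jLE_el _ _ _ _ _⟩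
  apply le_antisymm
  · apply iSup_le
    rintro ⟨c, hc⟩
    calc c.encard ≤ ({cls zr, cls (el true 0 0 true)} : Set (JClass T)).encard :=
          Set.encard_le_encard ((Set.subset_univ c).trans huniv)
      _ = 2 := Set.encard_pair hne
  · have hchain : IsChain JClass.le ({cls zr, cls (el true 0 0 true)} : Set (JClass T)) := by
      rintro a (rfl | rfl) b (rfl | rfl) hab
      · exact absurd rfl hab
      · exact Or.inl ((cls_le _ _).2 (jLE_zr _))
      · exact Or.inr ((cls_le _ _).2 (jLE_zr _))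
      · exact absurd rfl hab
    rw [← Set.encard_pair hne]
    exact le_iSup (fun c : {c : Set (JClass T) // IsChain JClass.le c} => c.val.encard)
      ⟨_, hchain⟩

/-- The bi-ideal: zero, the elements `(true, c p, true)` and the elements `(true, c, false)`. -/
def Bcar : Set T :=
  {x | x = zr ∨ (∃ m n, x = el true m (n + 1) true) ∨ (∃ m n, x = el true m n false)}

/-- Products `b * s * b'` with `b, b' ∈ Bcar`, as well as `b * b'`, are in `Bcar`. -/
theorem mul_mem_of_left {y : T} (hy : y ∈ Bcar) (m n : ℕ) (j : Bool) :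
    el true m n j * y ∈ Bcar := by
  rcases hy with rfl | ⟨m', n', rfl⟩ | ⟨m', n', rfl⟩
  · rw [mul_zr]; exact Or.inl rfl
  · cases j
    · rw [el_mul_ne _ _ _ _ _ _ _ _ (by simp)]; exact Or.inl rfl
    · rw [el_mul]
      refine Or.inr (Or.inl ⟨m + (m' - n), n' + (n - m'), ?_⟩)
      congr 1
      omega
  · cases j
    · rw [el_mul_ne _ _ _ _ _ _ _ _ (by simp)]; exact Or.inl rfl
    · rw [el_mul]
      exact Or.inr (Or.inr ⟨_, _, rfl⟩)

theorem left_form {x : T} (hx : x ∈ Bcar) (s : T) :
    (x = zr ∨ ∃ m n j, x = el true m n j) ∧ (x * s = zr ∨ ∃ m n j, x * s = el true m n j) := by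
  have h1 : x = zr ∨ ∃ m n j, x = el true m n j := by
    rcases hx with rfl | ⟨m, n, rfl⟩ | ⟨m, n, rfl⟩
    · exact Or.inl rfl
    · exact Or.inr ⟨_, _, _, rfl⟩
    · exact Or.inr ⟨_, _, _, rfl⟩
  refine ⟨h1, ?_⟩
  rcases h1 with rfl | ⟨m, n, j, rfl⟩
  · exact Or.inl (zr_mul _)
  · rcases T.cases_el s with rfl | ⟨i', m', n', j', rfl⟩
    · exact Or.inl (mul_zr _)
    · by_cases h : j = i'
      · subst h
        rw [el_mul]
        exact Or.inr ⟨_, _, _, rfl⟩
      · exact Or.inl (el_mul_ne _ _ _ _ _ _ _ _ h)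

/-- The bi-ideal `B` as a subsemigroup of `T`. -/
def B : Subsemigroup T where
  carrier := Bcar
  mul_mem' := by
    intro a b ha hb
    rcases (left_form ha zr).1 with rfl | ⟨m, n, j, rfl⟩
    · rw [zr_mul]; exact Or.inl rfl
    · exact mul_mem_of_left hb _ _ _

theorem isBiIdeal_B : IsBiIdeal B := by
  refine ⟨⟨zr, Or.inl rfl⟩, ?_⟩
  intro a ha s b hb
  show a * s * b ∈ Bcar
  rcases (left_form ha s).2 with h | ⟨m, n, j, h⟩
  · rw [h, zr_mul]; exact Or.inl rfl
  · rw [h]; exact mul_mem_of_left hb _ _ _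

/-- The descending sequence `a_k = (true, p ^ k, false)` in `B`. -/
def a (k : ℕ) : B := ⟨el true 0 k false, Or.inr (Or.inr ⟨0, k, rfl⟩)⟩

theorem a_mul (k : ℕ) (v : B) : ((a k * v : B) : T) = zr := by
  obtain ⟨v, hv⟩ := v
  show el true 0 k false * v = zr
  rcases (left_form hv zr).1 with rfl | ⟨m, n, j, rfl⟩
  · exact mul_zr _
  · exact el_mul_ne _ _ _ _ _ _ _ _ (by simp)

theorem mul_a (k : ℕ) (u : B) (x : T) (h : x = ((u * a k : B) : T)) :
    x = zr ∨ ∃ m n, x = el true m (k + 1 + n) false := by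
  obtain ⟨u, hu⟩ := u
  subst h
  show u * el true 0 k false = zr ∨ ∃ m n, u * el true 0 k false = el true m (k + 1 + n) false
  rcases hu with rfl | ⟨m, n, rfl⟩ | ⟨m, n, rfl⟩
  · exact Or.inl (zr_mul _)
  · right
    rw [el_mul]
    refine ⟨m + (0 - (n + 1)), n, ?_⟩
    congr 1
    omega
  · exact Or.inl (el_mul_ne _ _ _ _ _ _ _ _ (by simp))

/-- Every element of the ideal of `B` generated by `a k` is `a k`, zero, or has `p`-exponent
bigger than `k`. -/
theorem mem_ideal_a (k : ℕ) (x : B) (hx : x ∈ principalIdeal (a k)) :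
    x = a k ∨ (x : T) = zr ∨ ∃ m n, (x : T) = el true m (k + 1 + n) false := by
  rcases hx with h | ⟨u, h⟩ | ⟨v, h⟩ | ⟨u, v, h⟩
  · exact Or.inl h
  · exact Or.inr (mul_a k u _ (congrArg Subtype.val h))
  · right; left
    rw [h]
    exact a_mul k v
  · right; left
    rw [h, mul_assoc]
    show ((u : T) * ((a k * v : B) : T)) = zr
    rw [a_mul k v, mul_zr]

theorem not_jLE_a {k l : ℕ} (h : k < l) : ¬ jLE (a k) (a l) := by
  intro hle
  have hmem : a k ∈ principalIdeal (a l) := hle (Or.inl rfl)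
  rcases mem_ideal_a l (a k) hmem with h1 | h1 | ⟨m, n, h1⟩
  · have h2 : el true 0 k false = el true 0 l false := congrArg Subtype.val h1
    have := (el_inj h2).2.2.1
    omega
  · exact el_ne_zr _ _ _ _ h1
  · have h2 : el true 0 k false = el true m (l + 1 + n) false := h1
    have := (el_inj h2).2.2.1
    omega

/-- The ideal generated by a multiple is contained in the ideal generated. -/
theorem jLE_of_mul {S : Type*} [Semigroup S] (u x : S) : jLE (u * x) x := by
  rintro y (rfl | ⟨w, rfl⟩ | ⟨v, rfl⟩ | ⟨w, v, rfl⟩)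
  · exact Or.inr (Or.inl ⟨u, rfl⟩)
  · exact Or.inr (Or.inl ⟨w * u, (mul_assoc _ _ _).symm⟩)
  · exact Or.inr (Or.inr (Or.inr ⟨u, v, rfl⟩))
  · exact Or.inr (Or.inr (Or.inr ⟨w * u, v, by rw [mul_assoc w u x]⟩))

theorem a_succ (k : ℕ) : a (k + 1) =
    (⟨el true 0 1 true, Or.inr (Or.inl ⟨0, 0, rfl⟩)⟩ : B) * a k := by
  apply Subtype.ext
  show el true 0 (k + 1) false = el true 0 1 true * el true 0 k false
  rw [el_mul]

theorem jLE_a {k l : ℕ} (h : k ≤ l) : jLE (a l) (a k) := by
  induction l, h using Nat.le_induction with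
  | base => exact Set.Subset.rfl
  | succ l _ ih =>
    refine Set.Subset.trans ?_ ih
    rw [a_succ l]
    exact jLE_of_mul _ _

theorem jHeight_B : jHeight B = ⊤ := by
  have hinj : Function.Injective (fun k : ℕ => cls (a k)) := by
    intro k l hkl
    have hkl' := (cls_eq _ _).1 hkl
    by_contra hne
    rcases Nat.lt_or_gt_of_ne hne with h | h
    · exact not_jLE_a h hkl'.1
    · exact not_jLE_a h hkl'.2
  have hchain : IsChain JClass.le (Set.range (fun k : ℕ => cls (a k))) := by
    rintro _ ⟨k, rfl⟩ _ ⟨l, rfl⟩ _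
    rcases le_total k l with h | h
    · exact Or.inr ((cls_le _ _).2 (jLE_a h))
    · exact Or.inl ((cls_le _ _).2 (jLE_a h))
  rw [eq_top_iff]
  have hinf : (Set.range (fun k : ℕ => cls (a k))).encard = ⊤ :=
    (Set.infinite_range_of_injective hinj).encard_eq
  rw [← hinf]
  exact le_iSup (fun c : {c : Set (JClass B) // IsChain JClass.le c} => c.val.encard)
    ⟨_, hchain⟩

/-- There are a semigroup `S` of J-height exactly `2` and a bi-ideal `B` of `S` such that `B`,
as a semigroup in its own right, has infinite J-height. -/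
theorem result : ∃ (S : Type) (_ : Semigroup S) (B : Subsemigroup S),
    IsBiIdeal B ∧ jHeight S = 2 ∧ jHeight B = ⊤ :=
  ⟨T, inferInstance, B, isBiIdeal_B, jHeight_T, jHeight_B⟩

end Pool.Agent.Results.MP_92d133_al.BiIdealInfiniteJHeight
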